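import Pool.Agent.V11149.RandomBij

set_option autoImplicit false

namespace Pool.Agent.Results.MP_e534f3_co.RigidExpanders

open Finset

/-- The edges of `G` with exactly one end in `S`. -/
def boundary {V : Type} (G : SimpleGraph V) (S : Set V) : Set (Sym2 V) :=
  {e | e ∈ G.edgeSet ∧ ∃ u v, e = s(u, v) ∧ u ∈ S ∧ v ∉ S}

/-- `ρ` is a realisation in the plane `ℂ` of `G` with the edge lengths `lam`. -/
def IsRealisation {V : Type} (G : SimpleGraph V) (lam : Sym2 V → ℝ) (ρ : V → ℂ) : Prop :=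
  ∀ u v, G.Adj u v → ‖ρ u - ρ v‖ = lam s(u, v)

/-- Two maps to the plane `ℂ` differ by a direct Euclidean isometry `z ↦ a z + b`, `|a| = 1`. -/
def Equivalent {V : Type} (ρ σ : V → ℂ) : Prop :=
  ∃ a b : ℂ, ‖a‖ = 1 ∧ ∀ v, ρ v = a * σ v + b

/-- `G` is movable: for some positive labelling of the edges there are infinitely many
equivalence classes of injective realisations. -/
def Movable {V : Type} (G : SimpleGraph V) : Prop :=
  ∃ lam : Sym2 V → ℝ, (∀ e ∈ G.edgeSet, 0 < lam e) ∧
    {C : Set (V → ℂ) | ∃ ρ : V → ℂ, Function.Injective ρ ∧ IsRealisation G lam ρ ∧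
      C = {σ | Equivalent σ ρ}}.Infinite

/-- A constant degree `d` expander sequence of connected `d`-regular finite graphs. -/
def IsExpanderSequence (d : ℕ) (V : ℕ → Type) [∀ n, Fintype (V n)]
    (G : ∀ n, SimpleGraph (V n)) : Prop :=
  (∀ n, (G n).Connected ∧ ∀ v, ((G n).neighborSet v).ncard = d) ∧
    Filter.Tendsto (fun n => Fintype.card (V n)) Filter.atTop Filter.atTop ∧
    ∃ ε : ℝ, 0 < ε ∧ ∀ n (S : Set (V n)), 0 < S.ncard → 2 * S.ncard ≤ Fintype.card (V n) →
      ε * S.ncard ≤ (boundary (G n) S).ncard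

/-! ### rigidity -/

lemma two_circles (p q : ℂ) (r s : ℝ) (hpq : p ≠ q) :
    {z : ℂ | ‖z - p‖ = r ∧ ‖z - q‖ = s}.Finite := by
  by_cases h : ∃ z₁ z₂ : ℂ, z₁ ≠ z₂ ∧ (‖z₁ - p‖ = r ∧ ‖z₁ - q‖ = s) ∧ (‖z₂ - p‖ = r ∧ ‖z₂ - q‖ = s)
  · obtain ⟨z₁, z₂, hne, ⟨h1, h2⟩, h3, h4⟩ := h
    apply Set.Finite.subset (Set.toFinite {z₁, z₂})
    rintro z ⟨h5, h6⟩
    have := EuclideanGeometry.eq_of_dist_eq_of_dist_eq_of_finrank_eq_two (V := ℂ) (P := ℂ)
      Complex.finrank_real_complex (c₁ := p) (c₂ := q) (p₁ := z₁) (p₂ := z₂) (p := z) (r₁ := r)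
      (r₂ := s) hpq hne (by rw [dist_eq_norm]; exact h1) (by rw [dist_eq_norm]; exact h3)
      (by rw [dist_eq_norm]; exact h5) (by rw [dist_eq_norm]; exact h2)
      (by rw [dist_eq_norm]; exact h4) (by rw [dist_eq_norm]; exact h6)
    rcases this with h | h
    · exact Or.inl h
    · exact Or.inr h
  · apply Set.Subsingleton.finite
    intro z₁ hz₁ z₂ hz₂
    by_contra hne
    exact h ⟨z₁, z₂, hne, hz₁, hz₂⟩

lemma Equivalent.symm {V : Type} {ρ σ : V → ℂ} (h : Equivalent ρ σ) : Equivalent σ ρ := by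
  obtain ⟨a, b, ha, h⟩ := h
  have ha0 : a ≠ 0 := by
    intro h0
    rw [h0, norm_zero] at ha
    exact zero_ne_one ha
  refine ⟨a⁻¹, -(a⁻¹ * b), by rw [norm_inv, ha, inv_one], fun v => ?_⟩
  rw [h v]
  field_simp
  ring

lemma Equivalent.trans {V : Type} {ρ σ τ : V → ℂ} (h : Equivalent ρ σ) (h' : Equivalent σ τ) :
    Equivalent ρ τ := by
  obtain ⟨a, b, ha, h⟩ := h
  obtain ⟨a', b', ha', h'⟩ := h'
  refine ⟨a * a', a * b' + b, by rw [norm_mul, ha, ha', one_mul], fun v => ?_⟩
  rw [h v, h' v]; ring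

/-- a graph in which every vertex is obtained from an edge by successively adding vertices adjacent
to two earlier vertices is not movable. -/
lemma not_movable {V : Type} [Finite V] (G : SimpleGraph V) (a₀ b₀ : V) (hab : G.Adj a₀ b₀)
    (hclosed : ∀ D : Set V, a₀ ∈ D → b₀ ∈ D →
      (∀ u w v, u ∈ D → w ∈ D → u ≠ w → G.Adj u v → G.Adj w v → v ∈ D) → ∀ v, v ∈ D) :
    ¬ Movable G := by
  rintro ⟨lam, hpos, hinf⟩
  apply hinf
  -- normalised realisations
  let NR : Set (V → ℂ) := {ρ | Function.Injective ρ ∧ IsRealisation G lam ρ ∧ ρ a₀ = 0 ∧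
    ρ b₀ = (lam s(a₀, b₀) : ℂ)}
  have hP : ∀ v, ((fun ρ : V → ℂ => ρ v) '' NR).Finite := by
    apply hclosed {v | ((fun ρ : V → ℂ => ρ v) '' NR).Finite}
    · apply Set.Finite.subset (Set.finite_singleton (0 : ℂ))
      rintro z ⟨ρ, hρ, rfl⟩
      exact hρ.2.2.1
    · apply Set.Finite.subset (Set.finite_singleton ((lam s(a₀, b₀) : ℂ)))
      rintro z ⟨ρ, hρ, rfl⟩
      exact hρ.2.2.2
    · intro u w v hu hw huw huv hwv
      have hfin : (⋃ p ∈ ((fun ρ : V → ℂ => ρ u) '' NR), ⋃ q ∈ ((fun ρ : V → ℂ => ρ w) '' NR),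
          {z : ℂ | p ≠ q ∧ ‖z - p‖ = lam s(u, v) ∧ ‖z - q‖ = lam s(w, v)}).Finite := by
        apply Set.Finite.biUnion hu
        intro p _
        apply Set.Finite.biUnion hw
        intro q _
        by_cases hpq : p = q
        · apply Set.Finite.subset Set.finite_empty
          rintro z ⟨h, _⟩
          exact absurd hpq h
        · exact (two_circles p q _ _ hpq).subset (fun z hz => hz.2)
      apply Set.Finite.subset hfin
      rintro z ⟨ρ, hρ, rfl⟩
      rw [Set.mem_iUnion₂]
      refine ⟨ρ u, ⟨ρ, hρ, rfl⟩, ?_⟩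
      rw [Set.mem_iUnion₂]
      refine ⟨ρ w, ⟨ρ, hρ, rfl⟩, ?_⟩
      refine ⟨fun h => huw (hρ.1 h), ?_, ?_⟩
      · rw [← hρ.2.1 u v huv, norm_sub_rev]
      · rw [← hρ.2.1 w v hwv, norm_sub_rev]
  have hNR : NR.Finite := by
    apply Set.Finite.subset (Set.Finite.pi hP)
    intro ρ hρ v _
    exact ⟨ρ, hρ, rfl⟩
  apply Set.Finite.subset (hNR.image (fun ρ => {σ | Equivalent σ ρ}))
  rintro C ⟨ρ, hinj, hreal, rfl⟩
  -- normalise
  have hne : ρ b₀ - ρ a₀ ≠ 0 := by
    rw [sub_ne_zero]
    intro h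
    exact hab.ne (hinj h).symm
  have hnorm : ‖ρ b₀ - ρ a₀‖ = lam s(a₀, b₀) := by
    rw [norm_sub_rev]; exact hreal a₀ b₀ hab
  let c : ℂ := (‖ρ b₀ - ρ a₀‖ : ℂ) / (ρ b₀ - ρ a₀)
  have hc : ‖c‖ = 1 := by
    simp only [c]
    rw [norm_div, Complex.norm_real, norm_norm, div_self]
    exact norm_ne_zero_iff.mpr hne
  let ρ' : V → ℂ := fun v => c * (ρ v - ρ a₀)
  have heq : Equivalent ρ' ρ := ⟨c, -(c * ρ a₀), hc, fun v => by simp only [ρ']; ring⟩
  have hc0 : c ≠ 0 := by
    intro h
    rw [h, norm_zero] at hc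
    exact zero_ne_one hc
  refine ⟨ρ', ⟨?_, ?_, ?_, ?_⟩, ?_⟩
  · intro u v huv
    have h1 := mul_left_cancel₀ hc0 huv
    exact hinj (sub_left_injective h1)
  · intro u v huv
    have : ρ' u - ρ' v = c * (ρ u - ρ v) := by simp only [ρ']; ring
    rw [this, norm_mul, hc, one_mul]
    exact hreal u v huv
  · simp only [ρ', sub_self, mul_zero]
  · simp only [ρ', c]
    rw [div_mul_cancel₀ _ hne, hnorm]
  · ext σ
    constructor
    · intro h; exact h.trans heq
    · intro h; exact h.trans heq.symm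

/-! ### the base multigraph -/

/-- the property of the permutations used. -/
def Good {N : ℕ} (F : Fin 25 → Equiv.Perm (Fin N)) : Prop :=
  (∀ A B : Finset (Fin N), 1 ≤ A.card → 2 * A.card ≤ N → (∀ i, ∀ x ∈ A, F i x ∈ B) →
      3 * A.card / 2 < B.card) ∧
    (∀ A B : Finset (Fin N), 1 ≤ A.card → 2 * A.card ≤ N → (∀ i, ∀ x ∈ A, (F i).symm x ∈ B) →
      3 * A.card / 2 < B.card)

lemma half {N : ℕ} (h2N : 2 ≤ N) (F : Fin 25 → Equiv.Perm (Fin N))
    (hF : ∀ A B : Finset (Fin N), 1 ≤ A.card → 2 * A.card ≤ N → (∀ i, ∀ x ∈ A, F i x ∈ B) →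
      3 * A.card / 2 < B.card)
    (A B : Finset (Fin N)) (hAB : B.card ≤ A.card) (hN : A.card + B.card ≤ N) :
    A.card + B.card ≤ 6 * (univ.filter (fun q : Fin 25 × Fin N => q.2 ∈ A ∧ F q.1 q.2 ∉ B)).card := by
  classical
  rcases Nat.eq_zero_or_pos A.card with h0 | h0
  · omega
  set T := univ.filter (fun q : Fin 25 × Fin N => q.2 ∈ A ∧ F q.1 q.2 ∉ B) with hT
  let I : Finset (Fin N) := univ.biUnion (fun i => A.image (F i))
  have hI : ∀ i, ∀ x ∈ A, F i x ∈ I := by
    intro i x hx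
    rw [Finset.mem_biUnion]
    exact ⟨i, Finset.mem_univ _, Finset.mem_image_of_mem _ hx⟩
  have h1 : (I \ B).card ≤ T.card := by
    have h2 : I \ B ⊆ T.image (fun q => F q.1 q.2) := by
      intro y hy
      rw [Finset.mem_sdiff, Finset.mem_biUnion] at hy
      obtain ⟨⟨i, -, hi⟩, hyB⟩ := hy
      rw [Finset.mem_image] at hi
      obtain ⟨x, hx, rfl⟩ := hi
      rw [Finset.mem_image]
      exact ⟨(i, x), by rw [hT, Finset.mem_filter]; exact ⟨Finset.mem_univ _, hx, hyB⟩, rfl⟩
    exact (Finset.card_le_card h2).trans Finset.card_image_le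
  have h3 : I.card ≤ T.card + B.card := by
    have := Finset.le_card_sdiff B I
    omega
  by_cases hA : 2 * A.card ≤ N
  · have := hF A I h0 hA hI
    omega
  · push Not at hA
    obtain ⟨A', hA', hA'c⟩ := Finset.exists_subset_card_eq (show N / 2 ≤ A.card by omega)
    have hN2 : 1 ≤ A'.card := by omega
    have := hF A' I hN2 (by omega) (fun i x hx => hI i x (hA' hx))
    rw [hA'c] at this
    omega

/-- number of pairs `(i, x)` separated by `K`. -/
def cut {N : ℕ} (F : Fin 25 → Equiv.Perm (Fin N)) (K : Finset (Bool × Fin N)) : ℕ :=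
  (univ.filter (fun q : Fin 25 × Fin N => ¬ ((false, q.2) ∈ K ↔ (true, F q.1 q.2) ∈ K))).card

lemma card_split {N : ℕ} (K : Finset (Bool × Fin N)) :
    K.card = (univ.filter (fun x => (false, x) ∈ K)).card +
      (univ.filter (fun x => (true, x) ∈ K)).card := by
  classical
  have h1 : K = (univ.filter (fun x => (false, x) ∈ K)).image (fun x => (false, x)) ∪
      (univ.filter (fun x => (true, x) ∈ K)).image (fun x => (true, x)) := by
    ext ⟨b, x⟩
    cases b <;> simp
  conv_lhs => rw [h1]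
  rw [Finset.card_union_of_disjoint, Finset.card_image_of_injective, Finset.card_image_of_injective]
  · intro x y h; exact (Prod.mk.inj h).2
  · intro x y h; exact (Prod.mk.inj h).2
  · rw [Finset.disjoint_left]
    intro x hx hy
    rw [Finset.mem_image] at hx hy
    obtain ⟨a, _, rfl⟩ := hx
    obtain ⟨b, _, hb⟩ := hy
    exact absurd (Prod.mk.inj hb).1 (by decide)

lemma base_expansion {N : ℕ} (h2N : 2 ≤ N) (F : Fin 25 → Equiv.Perm (Fin N)) (hF : Good F)
    (K : Finset (Bool × Fin N)) (hK : K.card ≤ N) : K.card ≤ 6 * cut F K := by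
  classical
  set A := univ.filter (fun x => (false, x) ∈ K) with hA
  set B := univ.filter (fun x => (true, x) ∈ K) with hB
  have hs : K.card = A.card + B.card := card_split K
  rcases le_total B.card A.card with h | h
  · have h1 := half h2N F hF.1 A B h (by omega)
    have h2 : (univ.filter (fun q : Fin 25 × Fin N => q.2 ∈ A ∧ F q.1 q.2 ∉ B)).card ≤ cut F K := by
      apply Finset.card_le_card
      intro q hq
      simp only [hA, hB, Finset.mem_filter, Finset.mem_univ, true_and] at hq ⊢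
      intro h3
      exact hq.2 (h3.mp hq.1)
    omega
  · have h1 := half h2N (fun i => (F i).symm) hF.2 B A h (by omega)
    have h2 : (univ.filter (fun q : Fin 25 × Fin N => q.2 ∈ B ∧ (F q.1).symm q.2 ∉ A)).card ≤
        cut F K := by
      apply Finset.card_le_card_of_injOn (fun q => (q.1, (F q.1).symm q.2))
      · intro q hq
        rw [Finset.mem_coe] at hq ⊢
        simp only [hA, hB, Finset.mem_filter, Finset.mem_univ, true_and] at hq ⊢
        rw [Equiv.apply_symm_apply]
        intro h3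
        exact hq.2 (h3.mpr hq.1)
      · rintro ⟨i, x⟩ _ ⟨j, y⟩ _ hxy
        obtain ⟨h3, h4⟩ := Prod.mk.inj hxy
        simp only at h3 h4
        subst h3
        rw [(F i).symm.injective h4]
    omega

lemma cut_compl {N : ℕ} (F : Fin 25 → Equiv.Perm (Fin N)) (K : Finset (Bool × Fin N)) :
    cut F Kᶜ = cut F K := by
  unfold cut
  congr 1
  ext q
  simp only [Finset.mem_filter, Finset.mem_univ, true_and, Finset.mem_compl]
  tauto

lemma closed_all {N : ℕ} (h2N : 2 ≤ N) (F : Fin 25 → Equiv.Perm (Fin N)) (hF : Good F)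
    (K : Finset (Bool × Fin N)) (hne : K.Nonempty)
    (hcl : ∀ i x, (false, x) ∈ K ↔ (true, F i x) ∈ K) : K = univ := by
  have h0 : cut F K = 0 := by
    unfold cut
    rw [Finset.card_eq_zero, Finset.filter_eq_empty_iff]
    intro q _
    exact not_not.mpr (hcl q.1 q.2)
  have hcard : K.card + Kᶜ.card = 2 * N := by
    rw [Finset.card_add_card_compl, Fintype.card_prod, Fintype.card_bool, Fintype.card_fin]
  rcases le_or_gt K.card N with h | h
  · have := base_expansion h2N F hF K h
    have h1 := Finset.card_pos.mpr hne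
    omega
  · have h2 : Kᶜ.card ≤ N := by omega
    have := base_expansion h2N F hF Kᶜ h2
    rw [cut_compl, h0] at this
    have h3 : Kᶜ.card = 0 := by omega
    rw [Finset.card_eq_zero, Finset.compl_eq_empty_iff] at h3
    exact h3

/-! ### the graph -/

abbrev Vt (N : ℕ) : Type := (Bool × Fin N) × (Fin 25 × Bool)

/-- the neighbour of the clique `c` through port `i`. -/
def nb {N : ℕ} (F : Fin 25 → Equiv.Perm (Fin N)) (i : Fin 25) (c : Bool × Fin N) : Bool × Fin N :=
  (!c.1, if c.1 = true then (F i).symm c.2 else F i c.2)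

lemma nb_nb {N : ℕ} (F : Fin 25 → Equiv.Perm (Fin N)) (i : Fin 25) (c : Bool × Fin N) :
    nb F i (nb F i c) = c := by
  rcases c with ⟨b, x⟩
  cases b <;> simp [nb]

lemma nb_ne {N : ℕ} (F : Fin 25 → Equiv.Perm (Fin N)) (i : Fin 25) (c : Bool × Fin N) :
    nb F i c ≠ c := by
  rcases c with ⟨b, x⟩
  cases b <;> simp [nb]

def Gr {N : ℕ} (F : Fin 25 → Equiv.Perm (Fin N)) : SimpleGraph (Vt N) where
  Adj u v := (u.1 = v.1 ∧ u.2 ≠ v.2) ∨ (u.2.1 = v.2.1 ∧ v.1 = nb F u.2.1 u.1)
  symm := ⟨by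
    rintro u v (⟨h1, h2⟩ | ⟨h1, h2⟩)
    · exact Or.inl ⟨h1.symm, h2.symm⟩
    · right
      refine ⟨h1.symm, ?_⟩
      rw [h2, ← h1, nb_nb]⟩
  loopless := ⟨by
    rintro u (⟨_, h2⟩ | ⟨_, h2⟩)
    · exact h2 rfl
    · exact nb_ne F _ _ h2.symm⟩

lemma degree {N : ℕ} (F : Fin 25 → Equiv.Perm (Fin N)) (v : Vt N) :
    ((Gr F).neighborSet v).ncard = 51 := by
  classical
  have h : (Gr F).neighborSet v = (((univ.erase v.2).image (fun p => (v.1, p)) ∪
      (univ : Finset Bool).image (fun s => (nb F v.2.1 v.1, (v.2.1, s))) : Finset (Vt N)) : Set (Vt N)) := by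
    ext w
    rw [SimpleGraph.mem_neighborSet, Finset.mem_coe, Finset.mem_union, Finset.mem_image,
      Finset.mem_image]
    constructor
    · rintro (⟨h1, h2⟩ | ⟨h1, h2⟩)
      · left
        exact ⟨w.2, Finset.mem_erase.mpr ⟨h2.symm, Finset.mem_univ _⟩, Prod.ext h1 rfl⟩
      · right
        exact ⟨w.2.2, Finset.mem_univ _, Prod.ext h2.symm (Prod.ext h1 rfl)⟩
    · rintro (⟨p, hp, rfl⟩ | ⟨s, _, rfl⟩)
      · left
        exact ⟨rfl, (Finset.mem_erase.mp hp).1.symm⟩
      · right
        exact ⟨rfl, rfl⟩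
  rw [h, Set.ncard_coe_finset, Finset.card_union_of_disjoint, Finset.card_image_of_injective,
    Finset.card_image_of_injective, Finset.card_erase_of_mem (Finset.mem_univ _), Finset.card_univ,
    Finset.card_univ, Fintype.card_prod, Fintype.card_bool, Fintype.card_fin]
  · intro s t hst
    exact (Prod.mk.inj (Prod.mk.inj hst).2).2
  · intro p q hpq
    exact (Prod.mk.inj hpq).2
  · rw [Finset.disjoint_left]
    intro w hw hw2
    rw [Finset.mem_image] at hw hw2
    obtain ⟨p, _, rfl⟩ := hw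
    obtain ⟨s, _, hs⟩ := hw2
    exact nb_ne F _ _ (Prod.mk.inj hs).1

lemma not_movable_Gr {N : ℕ} (h2N : 2 ≤ N) (F : Fin 25 → Equiv.Perm (Fin N)) (hF : Good F) :
    ¬ Movable (Gr F) := by
  classical
  let c₀ : Bool × Fin N := (false, ⟨0, by omega⟩)
  apply not_movable (Gr F) (c₀, (0, false)) (c₀, (0, true))
    (Or.inl ⟨rfl, fun h => absurd (Prod.mk.inj h).2 (by decide)⟩)
  intro D hD1 hD2 hcl
  -- a clique with both vertices of a port in D is inside D
  have hclique : ∀ (c : Bool × Fin N) (i : Fin 25), (c, (i, false)) ∈ D → (c, (i, true)) ∈ D →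
      ∀ p, (c, p) ∈ D := by
    intro c i h1 h2 p
    by_cases hp1 : p = (i, false)
    · rw [hp1]; exact h1
    · by_cases hp2 : p = (i, true)
      · rw [hp2]; exact h2
      · refine hcl _ _ (c, p) h1 h2 ?_ (Or.inl ⟨rfl, fun h => hp1 h.symm⟩)
          (Or.inl ⟨rfl, fun h => hp2 h.symm⟩)
        intro h
        exact absurd (Prod.mk.inj (Prod.mk.inj h).2).2 (by decide)
  let K : Finset (Bool × Fin N) := univ.filter (fun c => ∀ p, (c, p) ∈ D)
  have hK : ∀ c, c ∈ K ↔ ∀ p, (c, p) ∈ D := by intro c; simp [K]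
  have hstep : ∀ i c, c ∈ K → nb F i c ∈ K := by
    intro i c hc
    rw [hK] at hc ⊢
    have h1 : ∀ s, (nb F i c, (i, s)) ∈ D := by
      intro s
      refine hcl (c, (i, false)) (c, (i, true)) _ (hc _) (hc _) ?_ (Or.inr ⟨rfl, rfl⟩)
        (Or.inr ⟨rfl, rfl⟩)
      intro h
      exact absurd (Prod.mk.inj (Prod.mk.inj h).2).2 (by decide)
    exact hclique _ i (h1 false) (h1 true)
  have hall := closed_all h2N F hF K ⟨c₀, (hK _).mpr (hclique c₀ 0 hD1 hD2)⟩ (by
    intro i x
    constructor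
    · intro h
      have := hstep i _ h
      simpa [nb] using this
    · intro h
      have := hstep i _ h
      simpa [nb] using this)
  intro v
  have : v.1 ∈ K := by rw [hall]; exact Finset.mem_univ _
  exact (hK v.1).mp this v.2

lemma expansion {N : ℕ} (h2N : 2 ≤ N) (F : Fin 25 → Equiv.Perm (Fin N)) (hF : Good F) (S : Set (Vt N))
    (hS : 2 * S.ncard ≤ Fintype.card (Vt N)) : S.ncard ≤ 7850 * (boundary (Gr F) S).ncard := by
  classical
  let K : Finset (Bool × Fin N) := univ.filter (fun c => ∀ p, (c, p) ∈ S)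
  let P : Finset (Bool × Fin N) := univ.filter (fun c => (∃ p, (c, p) ∈ S) ∧ ∃ p, (c, p) ∉ S)
  have hK : ∀ c, c ∈ K ↔ ∀ p, (c, p) ∈ S := by intro c; simp [K]
  have hP : ∀ c, c ∈ P ↔ (∃ p, (c, p) ∈ S) ∧ ∃ p, (c, p) ∉ S := by intro c; simp [P]
  have h50 : Fintype.card (Fin 25 × Bool) = 50 := by
    rw [Fintype.card_prod, Fintype.card_bool, Fintype.card_fin]
  -- sizes
  have hSle : S.ncard ≤ 50 * (K.card + P.card) := by
    have h1 : S ⊆ (((K ∪ P) ×ˢ (univ : Finset (Fin 25 × Bool)) : Finset (Vt N)) : Set (Vt N)) := by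
      intro v hv
      rw [Finset.mem_coe, Finset.mem_product]
      refine ⟨?_, Finset.mem_univ _⟩
      rw [Finset.mem_union, hK, hP]
      by_cases h : ∀ p, (v.1, p) ∈ S
      · exact Or.inl h
      · push Not at h
        exact Or.inr ⟨⟨v.2, hv⟩, h⟩
    have h2 := Set.ncard_le_ncard h1 (Finset.finite_toSet _)
    rw [Set.ncard_coe_finset, Finset.card_product, Finset.card_univ, h50] at h2
    have h3 := Finset.card_union_le K P
    omega
  have hKle : 50 * K.card ≤ S.ncard := by
    have h1 : ((K ×ˢ (univ : Finset (Fin 25 × Bool)) : Finset (Vt N)) : Set (Vt N)) ⊆ S := by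
      intro v hv
      rw [Finset.mem_coe, Finset.mem_product] at hv
      exact (hK v.1).mp hv.1 v.2
    have h2 := Set.ncard_le_ncard h1 (Set.toFinite _)
    rw [Set.ncard_coe_finset, Finset.card_product, Finset.card_univ, h50] at h2
    omega
  have hcardV : Fintype.card (Vt N) = 100 * N := by
    rw [Fintype.card_prod, Fintype.card_prod, h50, Fintype.card_bool, Fintype.card_fin]; ring
  have hKN : K.card ≤ N := by omega
  -- partial cliques
  have hPb : P.card ≤ (boundary (Gr F) S).ncard := by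
    have hch : ∀ c : Bool × Fin N, ∃ e : Sym2 (Vt N), c ∈ P → (e ∈ boundary (Gr F) S ∧
        ∀ v ∈ e, v.1 = c) := by
      intro c
      by_cases hc : c ∈ P
      · obtain ⟨⟨p, hp⟩, q, hq⟩ := (hP c).mp hc
        refine ⟨s((c, p), (c, q)), fun _ => ⟨⟨?_, _, _, rfl, hp, hq⟩, ?_⟩⟩
        · refine Or.inl ⟨rfl, fun h => hq ?_⟩
          have h' : p = q := h
          rw [← h']; exact hp
        · intro v hv
          rw [Sym2.mem_iff] at hv
          rcases hv with rfl | rfl <;> rfl
      · exact ⟨s((c, (0, false)), (c, (0, false))), fun h => absurd h hc⟩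
    choose e he using hch
    rw [← Set.ncard_coe_finset]
    apply Set.ncard_le_ncard_of_injOn e
    · intro c hc
      exact (he c (Finset.mem_coe.mp hc)).1
    · intro c hc d hd hcd
      obtain ⟨v, hv⟩ : ∃ v, v ∈ e c := by
        induction e c with
        | _ a b => exact ⟨a, Sym2.mem_mk_left _ _⟩
      have h1 := (he c (Finset.mem_coe.mp hc)).2 v hv
      have h2 := (he d (Finset.mem_coe.mp hd)).2 v (hcd ▸ hv)
      exact h1.symm.trans h2
  -- cut
  have hcut : cut F K ≤ (boundary (Gr F) S).ncard + 25 * P.card := by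
    let T1 : Finset (Fin 25 × Fin N) := (univ.filter (fun q : Fin 25 × Fin N =>
      ¬ ((false, q.2) ∈ K ↔ (true, F q.1 q.2) ∈ K))).filter
      (fun q => (false, q.2) ∉ P ∧ (true, F q.1 q.2) ∉ P)
    let T2 : Finset (Fin 25 × Fin N) := (univ.filter (fun q : Fin 25 × Fin N =>
      ¬ ((false, q.2) ∈ K ↔ (true, F q.1 q.2) ∈ K))).filter
      (fun q => ¬ ((false, q.2) ∉ P ∧ (true, F q.1 q.2) ∉ P))
    have h12 : cut F K = T1.card + T2.card :=
      (Finset.card_filter_add_card_filter_not _).symm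
    have h2 : T2.card ≤ 25 * P.card := by
      have h3 : T2 ⊆ (P ×ˢ (univ : Finset (Fin 25))).image
          (fun r => (r.2, if r.1.1 = true then (F r.2).symm r.1.2 else r.1.2)) := by
        intro q hq
        rw [Finset.mem_filter] at hq
        have h4 := hq.2
        rw [Finset.mem_image]
        by_cases h5 : (false, q.2) ∈ P
        · exact ⟨((false, q.2), q.1), by simp [h5], by simp⟩
        · have h6 : (true, F q.1 q.2) ∈ P := by
            by_contra h7
            exact h4 ⟨h5, h7⟩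
          exact ⟨((true, F q.1 q.2), q.1), by simp [h6], by simp⟩
      have h4 := (Finset.card_le_card h3).trans Finset.card_image_le
      rw [Finset.card_product, Finset.card_univ, Fintype.card_fin] at h4
      omega
    have h1 : T1.card ≤ (boundary (Gr F) S).ncard := by
      rw [← Set.ncard_coe_finset]
      apply Set.ncard_le_ncard_of_injOn (fun q : Fin 25 × Fin N =>
        s((((false, q.2), (q.1, false)) : Vt N), (((true, F q.1 q.2), (q.1, false)) : Vt N)))
      · intro q hq
        rw [Finset.mem_coe, Finset.mem_filter, Finset.mem_filter] at hq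
        obtain ⟨⟨_, h3⟩, h4, h5⟩ := hq
        have hadj : (Gr F).Adj (((false, q.2), (q.1, false)) : Vt N)
            (((true, F q.1 q.2), (q.1, false)) : Vt N) := by
          right
          exact ⟨rfl, by simp [nb]⟩
        refine ⟨hadj, ?_⟩
        -- membership of a clique which is neither full nor partial
        have hempty : ∀ c, c ∉ K → c ∉ P → ∀ p, (c, p) ∉ S := by
          intro c hcK hcP p hp
          apply hcP
          rw [hP]
          refine ⟨⟨p, hp⟩, ?_⟩
          by_contra hcon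
          push Not at hcon
          exact hcK ((hK c).mpr hcon)
        by_cases h6 : (false, q.2) ∈ K
        · have h7 : (true, F q.1 q.2) ∉ K := fun h => h3 ⟨fun _ => h, fun _ => h6⟩
          exact ⟨_, _, rfl, (hK _).mp h6 _, hempty _ h7 h5 _⟩
        · have h7 : (true, F q.1 q.2) ∈ K := by
            by_contra h8
            exact h3 ⟨fun h => absurd h h6, fun h => absurd h h8⟩
          exact ⟨_, _, Sym2.eq_swap, (hK _).mp h7 _, hempty _ h6 h4 _⟩
      · rintro ⟨i, x⟩ _ ⟨j, y⟩ _ h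
        simp only [Sym2.eq_iff] at h
        rcases h with ⟨h3, _⟩ | ⟨h3, _⟩
        · obtain ⟨h4, h5⟩ := Prod.mk.inj h3
          rw [(Prod.mk.inj h4).2, (Prod.mk.inj h5).1]
        · exact absurd (Prod.mk.inj (Prod.mk.inj h3).1).1 (by decide)
    omega
  have hbase := base_expansion h2N F hF K hKN
  omega

lemma connected_of_expansion {V : Type} [Fintype V] [Nonempty V] (G : SimpleGraph V)
    (h : ∀ S : Set V, 2 * S.ncard ≤ Fintype.card V → S.ncard ≤ 7850 * (boundary G S).ncard) :
    G.Connected := by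
  classical
  have key : ∀ S : Set V, boundary G S = ∅ → S.Nonempty → S = Set.univ := by
    intro S hS hne
    have hcompl : boundary G Sᶜ = ∅ := by
      rw [Set.eq_empty_iff_forall_notMem] at hS ⊢
      rintro e ⟨he, u, v, rfl, hu, hv⟩
      apply hS s(u, v)
      refine ⟨he, v, u, Sym2.eq_swap, ?_, hu⟩
      exact not_not.mp hv
    have hsum : S.ncard + Sᶜ.ncard = Fintype.card V := by
      rw [Set.ncard_add_ncard_compl, Nat.card_eq_fintype_card]
    rcases le_total (2 * S.ncard) (Fintype.card V) with h1 | h1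
    · have h2 := h S h1
      rw [hS, Set.ncard_empty, mul_zero] at h2
      have h3 := (Set.ncard_pos (Set.toFinite S)).mpr hne
      omega
    · have h2 := h Sᶜ (by omega)
      rw [hcompl, Set.ncard_empty, mul_zero] at h2
      have h3 : Sᶜ = ∅ := by
        rw [← Set.ncard_eq_zero (Set.toFinite _)]; omega
      rwa [Set.compl_empty_iff] at h3
  refine { preconnected := ?_, nonempty := inferInstance }
  intro a b
  have h1 := key {v | G.Reachable a v} (by
    rw [Set.eq_empty_iff_forall_notMem]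
    rintro e ⟨he, u, v, rfl, hu, hv⟩
    exact hv (SimpleGraph.Reachable.trans hu (SimpleGraph.Adj.reachable he))) ⟨a, SimpleGraph.Reachable.refl a⟩
  have h2 : b ∈ {v | G.Reachable a v} := by rw [h1]; exact Set.mem_univ b
  exact h2

/-- There is a constant degree 51 expander sequence none of whose members is movable. -/
theorem result : ∃ (d : ℕ) (V : ℕ → Type) (_ : ∀ n, Fintype (V n)) (G : ∀ n, SimpleGraph (V n)),
    3 ≤ d ∧ IsExpanderSequence d V G ∧ ∀ n, ¬ Movable (G n) := by
  have hex : ∀ N : ℕ, ∃ F : Fin 25 → Equiv.Perm (Fin N), Good F := fun N =>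
    Pool.Agent.V11149.RandomBij.exists_good N
  choose F hF using hex
  refine ⟨51, fun n => Vt (n + 2), fun n => inferInstance, fun n => Gr (F (n + 2)), by norm_num,
    ⟨fun n => ⟨connected_of_expansion _ (expansion (by omega) _ (hF _)), fun v => degree _ v⟩, ?_, ?_⟩,
    fun n => not_movable_Gr (by omega) _ (hF _)⟩
  · rw [Filter.tendsto_atTop]
    intro b
    rw [Filter.eventually_atTop]
    refine ⟨b, fun n hn => ?_⟩
    have : Fintype.card (Vt (n + 2)) = 100 * (n + 2) := by
      rw [Fintype.card_prod, Fintype.card_prod, Fintype.card_prod, Fintype.card_bool,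
        Fintype.card_fin, Fintype.card_fin]; ring
    rw [this]; omega
  · refine ⟨1 / 7850, by norm_num, fun n S _ hS => ?_⟩
    have h1 := expansion (by omega) (F (n + 2)) (hF _) S hS
    have h2 : (S.ncard : ℝ) ≤ 7850 * ((boundary (Gr (F (n + 2))) S).ncard : ℝ) := by
      exact_mod_cast h1
    linarith

end Pool.Agent.Results.MP_e534f3_co.RigidExpanders
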